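import Mathlib

set_option autoImplicit false

namespace Pool.Agent.MP_f411ce_al

/-- A connected bipartite graph given by its adjacency relation and its distance function,
in which all predecessors of a vertex (towards any base point) have a second common neighbour. -/
structure BH (V : Type) where
  adj : V → V → Prop
  d : V → V → ℕ
  symm : ∀ {x y : V}, adj x y → adj y x
  zero : ∀ {x y : V}, d x y = 0 ↔ x = y
  step : ∀ (u : V) {x y : V}, adj x y → d u y = d u x + 1 ∨ d u x = d u y + 1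
  pred : ∀ u x : V, 0 < d u x → ∃ y, adj x y ∧ d u y + 1 = d u x
  star : ∀ u x : V, 2 ≤ d u x →
    ∃ z, d u z + 2 = d u x ∧ ∀ y, adj x y → d u y + 1 = d u x → adj y z

namespace BH

variable {V : Type} (B : BH V)

theorem d_self (x : V) : B.d x x = 0 := B.zero.2 rfl

theorem adj_d {x y : V} (h : B.adj x y) : B.d x y = 1 := by
  have := B.step x h
  have := B.d_self x
  omega

theorem tri (u x w : V) : B.d u w ≤ B.d u x + B.d x w := by
  generalize hn : B.d x w = n
  induction n generalizing w with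
  | zero =>
    have := B.zero.1 hn
    subst this
    omega
  | succ n ih =>
    obtain ⟨y, hy, hd⟩ := B.pred x w (by omega)
    have h1 := ih y (by omega)
    have h2 := B.step u hy
    omega

theorem d_le_symm (u w : V) : B.d w u ≤ B.d u w := by
  generalize hn : B.d u w = n
  induction n generalizing w with
  | zero =>
    have := B.zero.1 hn
    subst this
    omega
  | succ n ih =>
    obtain ⟨y, hy, hd⟩ := B.pred u w (by omega)
    have h1 := ih y (by omega)
    have h2 := B.tri w y u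
    have h3 := B.adj_d hy
    omega

theorem d_symm (u w : V) : B.d w u = B.d u w :=
  le_antisymm (B.d_le_symm u w) (B.d_le_symm w u)

theorem one_adj {x y : V} (h : B.d x y = 1) : B.adj x y := by
  obtain ⟨z, hz, hd⟩ := B.pred x y (by omega)
  have : x = z := B.zero.1 (by omega)
  subst this
  exact B.symm hz

theorem par (u x w : V) : (B.d u x + B.d x w + B.d u w) % 2 = 0 := by
  generalize hn : B.d x w = n
  induction n generalizing w with
  | zero =>
    have := B.zero.1 hn
    subst this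
    omega
  | succ n ih =>
    obtain ⟨y, hy, hd⟩ := B.pred x w (by omega)
    have h1 := ih y (by omega)
    have h2 := B.step u hy
    omega

theorem modular (u x w : V) (h : B.d u w < B.d u x + B.d x w) :
    ∃ y, B.adj x y ∧ B.d u y + 1 = B.d u x ∧ B.d y w + 1 = B.d x w := by
  generalize hn : B.d x w = n
  induction n generalizing w with
  | zero =>
    have := B.zero.1 hn
    subst this
    omega
  | succ n ih =>
    obtain ⟨w', hw', hd⟩ := B.pred x w (by omega)
    by_cases hc : B.d u w' < B.d u x + B.d x w'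
    · obtain ⟨y, hy, h1, h2⟩ := ih w' hc (by omega)
      refine ⟨y, hy, h1, ?_⟩
      have h3 := B.step y hw'
      have h4 := B.tri x y w
      have h5 := B.adj_d hy
      omega
    · have h1 := B.tri u x w'
      have h2 := B.step u hw'
      rcases Nat.eq_zero_or_pos n with h0 | h0
      · have : x = w' := B.zero.1 (by omega)
        subst this
        refine ⟨w, B.symm hw', by omega, ?_⟩
        have := B.d_self w
        omega
      · obtain ⟨w'', hw'', hd'⟩ := B.pred x w' (by omega)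
        have h3 := B.tri u x w''
        have h4 := B.step u hw''
        have h5 : 2 ≤ B.d u w' := by
          by_contra hlt
          have e1 : u = w := B.zero.1 (by omega)
          have e2 : u = w'' := B.zero.1 (by omega)
          subst e1
          subst e2
          omega
        obtain ⟨z, hz, hall⟩ := B.star u w' h5
        have a1 := hall w (B.symm hw') (by omega)
        have a2 := hall w'' hw'' (by omega)
        have b1 := B.step x a1
        have b2 := B.step x a2
        obtain ⟨y, hy, c1, c2⟩ := ih z (by omega) (by omega)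
        refine ⟨y, hy, c1, ?_⟩
        have h6 := B.step y a1
        have h7 := B.tri x y w
        have h8 := B.adj_d hy
        omega

theorem helly (o : V) (π : ℕ) (x0 : V) (hx0 : B.d o x0 % 2 = π) (F : List (V × ℕ))
    (hpar : ∀ p ∈ F, (B.d o p.1 + p.2) % 2 = π)
    (hpair : ∀ p ∈ F, ∀ q ∈ F, B.d p.1 q.1 ≤ p.2 + q.2) :
    ∃ x, B.d o x % 2 = π ∧ ∀ p ∈ F, B.d p.1 x ≤ p.2 := by
  induction F with
  | nil => exact ⟨x0, hx0, by simp⟩
  | cons p F ih =>
    obtain ⟨x, hx, hF⟩ := ih (fun q hq => hpar q (List.mem_cons_of_mem _ hq))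
      (fun q hq q' hq' => hpair q (List.mem_cons_of_mem _ hq) q' (List.mem_cons_of_mem _ hq'))
    have hp := hpar p List.mem_cons_self
    generalize hk : B.d p.1 x = k
    induction k using Nat.strong_induction_on generalizing x with
    | _ k ihk =>
      by_cases hle : k ≤ p.2
      · refine ⟨x, hx, ?_⟩
        intro q hq
        rcases List.mem_cons.1 hq with rfl | hq
        · omega
        · exact hF q hq
      · have h1 := B.par o p.1 x
        obtain ⟨z, hz, hall⟩ := B.star p.1 x (by omega)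
        have h2 := B.par o p.1 z
        refine ihk (B.d p.1 z) (by omega) z (by omega) ?_ rfl
        intro q hq
        have hq1 := hF q hq
        have hq2 := hpar q (List.mem_cons_of_mem _ hq)
        have hq3 := hpair p List.mem_cons_self q (List.mem_cons_of_mem _ hq)
        have hq4 := B.par o q.1 x
        have hq5 := B.d_symm q.1 x
        by_cases ht : B.d q.1 x = q.2
        · obtain ⟨y, hy, c1, c2⟩ := B.modular p.1 x q.1 (by omega)
          have a1 := hall y hy c1
          have a2 := B.step q.1 a1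
          have a3 := B.d_symm q.1 y
          omega
        · obtain ⟨y, hy, c1⟩ := B.pred p.1 x (by omega)
          have a1 := hall y hy c1
          have a2 := B.step q.1 a1
          have a3 := B.step q.1 hy
          omega

/-- Ordered edges. -/
def Dt : Type := {p : V × V // B.adj p.1 p.2}

/-- All four distances between the end points are at most `r + 1`. -/
def Near (e e' : B.Dt) (r : ℕ) : Prop :=
  B.d e.1.1 e'.1.1 ≤ r + 1 ∧ B.d e.1.1 e'.1.2 ≤ r + 1 ∧
    B.d e.1.2 e'.1.1 ≤ r + 1 ∧ B.d e.1.2 e'.1.2 ≤ r + 1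

theorem near_symm {e e' : B.Dt} {r : ℕ} (h : B.Near e e' r) : B.Near e' e r := by
  obtain ⟨h1, h2, h3, h4⟩ := h
  refine ⟨?_, ?_, ?_, ?_⟩ <;> rw [B.d_symm] <;> assumption

theorem near_self (e : B.Dt) : B.Near e e 0 := by
  have h1 := B.adj_d e.2
  have h2 := B.adj_d (B.symm e.2)
  have h3 := B.d_self e.1.1
  have h4 := B.d_self e.1.2
  refine ⟨?_, ?_, ?_, ?_⟩ <;> omega

theorem near_mono {e e' : B.Dt} {r s : ℕ} (h : B.Near e e' r) (hrs : r ≤ s) : B.Near e e' s := by
  obtain ⟨h1, h2, h3, h4⟩ := h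
  refine ⟨?_, ?_, ?_, ?_⟩ <;> omega

theorem near_aux (e : B.Dt) (x y : V) (r s : ℕ) (h1 : B.d x e.1.1 ≤ r + 1)
    (h2 : B.d x e.1.2 ≤ r + 1) (h3 : B.d e.1.1 y ≤ s + 1) (h4 : B.d e.1.2 y ≤ s + 1) :
    B.d x y ≤ r + s + 1 := by
  have a1 := B.tri x e.1.1 y
  have a2 := B.tri x e.1.2 y
  have a3 := B.step x e.2
  omega

theorem near_tri {e e' e'' : B.Dt} {r s : ℕ} (h : B.Near e e' r) (h' : B.Near e' e'' s) :
    B.Near e e'' (r + s) := by
  obtain ⟨h1, h2, h3, h4⟩ := h
  obtain ⟨k1, k2, k3, k4⟩ := h'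
  exact ⟨B.near_aux e' _ _ r s h1 h2 k1 k3, B.near_aux e' _ _ r s h1 h2 k2 k4,
    B.near_aux e' _ _ r s h3 h4 k1 k3, B.near_aux e' _ _ r s h3 h4 k2 k4⟩

theorem near_helly (e0 : B.Dt) (F : List (B.Dt × ℕ))
    (hpair : ∀ p ∈ F, ∀ q ∈ F, B.Near p.1 q.1 (p.2 + q.2)) :
    ∃ e : B.Dt, ∀ p ∈ F, B.Near p.1 e p.2 := by
  classical
  let o : V := e0.1.1
  let c : B.Dt × ℕ → V := fun p => if (B.d o p.1.1.1 + p.2) % 2 = 0 then p.1.1.1 else p.1.1.2
  let c' : B.Dt × ℕ → V := fun p => if (B.d o p.1.1.1 + p.2) % 2 = 0 then p.1.1.2 else p.1.1.1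
  have hc : ∀ p : B.Dt × ℕ, ((c p = p.1.1.1 ∧ c' p = p.1.1.2) ∨ (c p = p.1.1.2 ∧ c' p = p.1.1.1)) ∧
      (B.d o (c p) + p.2) % 2 = 0 ∧ (B.d o (c' p) + p.2) % 2 = 1 := by
    intro p
    have := B.step o p.1.2
    by_cases h : (B.d o p.1.1.1 + p.2) % 2 = 0
    · simp only [c, c', if_pos h]
      refine ⟨Or.inl ⟨trivial, trivial⟩, h, by omega⟩
    · simp only [c, c', if_neg h]
      refine ⟨Or.inr ⟨trivial, trivial⟩, by omega, by omega⟩
  obtain ⟨x, hx, hF⟩ := B.helly o 0 o (by rw [B.d_self]) (F.map fun p => (c p, p.2)) (by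
      intro p hp
      obtain ⟨q, _, rfl⟩ := List.mem_map.1 hp
      exact (hc q).2.1) (by
      intro p hp q hq
      obtain ⟨p', hp', rfl⟩ := List.mem_map.1 hp
      obtain ⟨q', hq', rfl⟩ := List.mem_map.1 hq
      obtain ⟨h1, h2, h3, h4⟩ := hpair p' hp' q' hq'
      have a1 := B.par o (c p') (c q')
      obtain ⟨b1, b2, -⟩ := hc p'
      obtain ⟨b3, b4, -⟩ := hc q'
      have : B.d (c p') (c q') ≤ p'.2 + q'.2 + 1 := by
        rcases b1 with ⟨e1, -⟩ | ⟨e1, -⟩ <;> rcases b3 with ⟨e2, -⟩ | ⟨e2, -⟩ <;> rw [e1, e2] <;>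
          assumption
      dsimp only
      omega)
  have hF' : ∀ p ∈ F, B.d (c p) x ≤ p.2 := fun p hp => hF _ (List.mem_map.2 ⟨p, hp, rfl⟩)
  have hcc : ∀ p : B.Dt × ℕ, B.adj (c p) (c' p) := by
    intro p
    rcases (hc p).1 with ⟨e1, e2⟩ | ⟨e1, e2⟩ <;> rw [e1, e2]
    · exact p.1.2
    · exact B.symm p.1.2
  have hx' : ∀ p ∈ F, B.d x (c' p) ≤ p.2 + 1 := by
    intro p hp
    have a1 := hF' p hp
    have a2 := B.d_symm x (c p)
    have a3 := B.step x (hcc p)
    omega
  obtain ⟨y, hy, hG⟩ := B.helly o 1 e0.1.2 (by rw [B.adj_d e0.2])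
    ((x, 1) :: F.map fun p => (c' p, p.2)) (by
      intro p hp
      rcases List.mem_cons.1 hp with rfl | hp
      · dsimp only
        omega
      · obtain ⟨q, _, rfl⟩ := List.mem_map.1 hp
        exact (hc q).2.2) (by
      intro p hp q hq
      rcases List.mem_cons.1 hp with rfl | hp <;> rcases List.mem_cons.1 hq with rfl | hq
      · simp [B.d_self]
      · obtain ⟨q', hq', rfl⟩ := List.mem_map.1 hq
        have := hx' q' hq'
        dsimp only
        omega
      · obtain ⟨p', hp', rfl⟩ := List.mem_map.1 hp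
        have := hx' p' hp'
        have := B.d_symm x (c' p')
        dsimp only
        omega
      · obtain ⟨p', hp', rfl⟩ := List.mem_map.1 hp
        obtain ⟨q', hq', rfl⟩ := List.mem_map.1 hq
        obtain ⟨h1, h2, h3, h4⟩ := hpair p' hp' q' hq'
        have a1 := B.par o (c' p') (c' q')
        obtain ⟨b1, -, b2⟩ := hc p'
        obtain ⟨b3, -, b4⟩ := hc q'
        have : B.d (c' p') (c' q') ≤ p'.2 + q'.2 + 1 := by
          rcases b1 with ⟨-, e1⟩ | ⟨-, e1⟩ <;> rcases b3 with ⟨-, e2⟩ | ⟨-, e2⟩ <;> rw [e1, e2] <;>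
            assumption
        dsimp only
        omega)
  have hxy : B.adj x y := by
    apply B.one_adj
    have a1 := hG _ List.mem_cons_self
    have a2 := B.par o x y
    dsimp only at a1
    omega
  refine ⟨⟨(x, y), hxy⟩, ?_⟩
  intro p hp
  have a1 := hF' p hp
  have a2 : B.d (c' p) y ≤ p.2 :=
    hG _ (List.mem_cons_of_mem _ (List.mem_map.2 ⟨p, hp, rfl⟩))
  have a3 := B.step (c p) hxy
  have a4 := B.step (c' p) hxy
  rcases (hc p).1 with ⟨e1, e2⟩ | ⟨e1, e2⟩ <;> rw [e1] at a1 a3 <;> rw [e2] at a2 a4 <;>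
    refine ⟨?_, ?_, ?_, ?_⟩ <;> dsimp only <;> omega

/-- The edge graph. -/
def H : SimpleGraph B.Dt where
  Adj e e' := e ≠ e' ∧ B.Near e e' 1
  symm := ⟨fun _ _ h => ⟨h.1.symm, B.near_symm h.2⟩⟩
  loopless := ⟨fun _ h => h.1 rfl⟩

theorem near_of_walk {e e' : B.Dt} (w : B.H.Walk e e') : B.Near e e' w.length := by
  induction w with
  | nil => exact B.near_self _
  | cons h w ih =>
    have := B.near_tri h.2 ih
    rwa [SimpleGraph.Walk.length_cons, add_comm]

theorem walk_of_near (r : ℕ) (e e' : B.Dt) (h : B.Near e e' (r + 1)) :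
    ∃ w : B.H.Walk e e', w.length ≤ r + 1 := by
  induction r generalizing e with
  | zero =>
    by_cases he : e = e'
    · subst he
      exact ⟨SimpleGraph.Walk.nil, by simp⟩
    · exact ⟨SimpleGraph.Walk.cons (show B.H.Adj e e' from ⟨he, h⟩) SimpleGraph.Walk.nil, by simp⟩
  | succ r ih =>
    obtain ⟨f, hf⟩ := B.near_helly e [(e, 1), (e', r + 1)] (by
      intro p hp q hq
      simp only [List.mem_cons, List.not_mem_nil, or_false] at hp hq
      rcases hp with rfl | rfl <;> rcases hq with rfl | rfl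
      · exact B.near_mono (B.near_self _) (Nat.zero_le _)
      · exact B.near_mono h (by dsimp only; omega)
      · exact B.near_mono (B.near_symm h) (by dsimp only; omega)
      · exact B.near_mono (B.near_self _) (Nat.zero_le _))
    have h1 : B.Near e f 1 := hf (e, 1) (by simp)
    have h2 : B.Near e' f (r + 1) := hf (e', r + 1) (by simp)
    obtain ⟨w, hw⟩ := ih f (B.near_symm h2)
    by_cases he : e = f
    · subst he
      exact ⟨w, by omega⟩
    · exact ⟨SimpleGraph.Walk.cons (show B.H.Adj e f from ⟨he, h1⟩) w, by simpa using hw⟩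

theorem connected (e0 : B.Dt) : B.H.Connected := by
  have : Nonempty B.Dt := ⟨e0⟩
  refine SimpleGraph.Connected.mk ?_
  intro e e'
  obtain ⟨w, -⟩ := B.walk_of_near (B.d e.1.1 e'.1.1 + B.d e.1.1 e'.1.2 + B.d e.1.2 e'.1.1 +
    B.d e.1.2 e'.1.2) e e' (by refine ⟨?_, ?_, ?_, ?_⟩ <;> omega)
  exact ⟨w⟩

theorem near_of_dist {e e' : B.Dt} {r : ℕ} (h : B.H.dist e e' ≤ r) : B.Near e e' r := by
  obtain ⟨w, hw⟩ := (B.connected e).exists_walk_length_eq_dist e e'
  exact B.near_mono (B.near_of_walk w) (by omega)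

theorem dist_of_near {e e' : B.Dt} {r : ℕ} (h : B.Near e e' r) (hr : 0 < r) :
    B.H.dist e e' ≤ r := by
  obtain ⟨s, rfl⟩ : ∃ s, r = s + 1 := ⟨r - 1, by omega⟩
  obtain ⟨w, hw⟩ := B.walk_of_near s e e' h
  exact (SimpleGraph.dist_le w).trans hw

theorem ball_finite (hfin : ∀ x, {y | B.adj x y}.Finite) (x : V) (n : ℕ) :
    {y | B.d x y ≤ n}.Finite := by
  induction n with
  | zero =>
    refine (Set.finite_singleton x).subset ?_
    intro y hy
    exact (B.zero.1 (Nat.le_zero.1 hy)).symm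
  | succ n ih =>
    refine (ih.union (ih.biUnion fun z _ => hfin z)).subset ?_
    intro y hy
    by_cases h : B.d x y ≤ n
    · exact Or.inl h
    · have hy' : B.d x y ≤ n + 1 := hy
      obtain ⟨z, hz, hd⟩ := B.pred x y (by omega)
      refine Or.inr (Set.mem_biUnion (show B.d x z ≤ n by omega) (B.symm hz))

theorem near_finite (hfin : ∀ x, {y | B.adj x y}.Finite) (e : B.Dt) (r : ℕ) :
    {e' | B.Near e e' r}.Finite := by
  have h := B.ball_finite hfin e.1.1 (r + 1)
  refine ((h.prod h).preimage (f := fun e' : B.Dt => e'.1) Subtype.val_injective.injOn).subset ?_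
  intro e' he'
  exact ⟨he'.1, he'.2.1⟩

theorem nbr_finite (hfin : ∀ x, {y | B.adj x y}.Finite) (e : B.Dt) :
    (B.H.neighborSet e).Finite :=
  (B.near_finite hfin e 1).subset fun _ h => h.2

theorem H_helly (hfin : ∀ x, {y | B.adj x y}.Finite) (e0 : B.Dt) (S : Set (B.Dt × ℕ))
    (hS : ∀ p ∈ S, ∀ q ∈ S, ∃ x, B.H.dist p.1 x ≤ p.2 ∧ B.H.dist q.1 x ≤ q.2) :
    ∃ x, ∀ p ∈ S, B.H.dist p.1 x ≤ p.2 := by
  classical
  by_cases h0 : ∃ p ∈ S, p.2 = 0
  · obtain ⟨p, hp, hp0⟩ := h0
    refine ⟨p.1, fun q hq => ?_⟩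
    obtain ⟨x, h1, h2⟩ := hS p hp q hq
    have : p.1 = x := (B.connected e0).dist_eq_zero_iff.1 (by omega)
    rw [this]
    exact h2
  have hpos : ∀ p ∈ S, 0 < p.2 := fun p hp => Nat.pos_of_ne_zero fun h => h0 ⟨p, hp, h⟩
  have hN : ∀ p ∈ S, ∀ q ∈ S, B.Near p.1 q.1 (p.2 + q.2) := by
    intro p hp q hq
    obtain ⟨x, h1, h2⟩ := hS p hp q hq
    exact B.near_tri (B.near_of_dist h1) (B.near_symm (B.near_of_dist h2))
  rcases S.eq_empty_or_nonempty with rfl | ⟨p0, hp0⟩
  · exact ⟨e0, by simp⟩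
  by_contra hcon
  push Not at hcon
  choose f hf1 hf2 using hcon
  have hfinite := B.near_finite hfin p0.1 p0.2
  have hmem : ∀ p ∈ p0 :: hfinite.toFinset.toList.map f, p ∈ S := by
    intro p hp
    rcases List.mem_cons.1 hp with rfl | hp
    · exact hp0
    · obtain ⟨x, -, rfl⟩ := List.mem_map.1 hp
      exact hf1 x
  obtain ⟨x, hx⟩ := B.near_helly e0 (p0 :: hfinite.toFinset.toList.map f)
    fun p hp q hq => hN p (hmem p hp) q (hmem q hq)
  have h1 := hx p0 List.mem_cons_self
  have h2 := hx (f x) (List.mem_cons_of_mem _ (List.mem_map.2 ⟨x, by simpa using h1, rfl⟩))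
  exact absurd (B.dist_of_near h2 (hpos _ (hf1 x))) (not_le.2 (hf2 x))

end BH

end Pool.Agent.MP_f411ce_al
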