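import Pool.Agent.MP_f411ce_al.Words
import Pool.Agent.MP_f411ce_al.Abstract

set_option autoImplicit false

namespace Pool.Agent.MP_f411ce_al

section Ev

variable {Γ : Type} [Group Γ]

/-- Value of a letter. -/
def evG (x : Fin 3 → Γ) (s : L) : Γ :=
  match s.val with
  | 0 => x 0
  | 1 => x 1
  | 2 => x 2
  | 3 => x 1 * x 2 * x 1
  | 4 => x 0 * x 2 * x 0
  | 5 => x 0 * x 1 * x 0
  | 6 => (x 0)⁻¹
  | 7 => (x 1)⁻¹
  | 8 => (x 2)⁻¹
  | 9 => (x 1 * x 2 * x 1)⁻¹
  | 10 => (x 0 * x 2 * x 0)⁻¹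
  | _ => (x 0 * x 1 * x 0)⁻¹

theorem evG_bar (x : Fin 3 → Γ) (s : L) : evG x (bar s) = (evG x s)⁻¹ := by
  fin_cases s <;> first | rfl | exact (inv_inv _).symm

theorem evG_map {Γ' : Type} [Group Γ'] (φ : Γ →* Γ') (x : Fin 3 → Γ) (s : L) :
    φ (evG x s) = evG (fun i => φ (x i)) s := by
  fin_cases s <;> simp [evG]

theorem l1 (a b D : Γ) (_h1 : D = a * b * a) (h2 : D = b * a * b) : b⁻¹ * D = a * b := by
  rw [h2]; group

theorem l2 (a b D : Γ) (h1 : D = a * b * a) (_h2 : D = b * a * b) : D * a⁻¹ = a * b := by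
  rw [h1]; group

theorem l3 (a b D : Γ) (h1 : D = a * b * a) (h2 : D = b * a * b) : D * b = a * D := by
  conv_lhs => rw [h1]
  rw [h2]; group

theorem l4 (a b D : Γ) (_h1 : D = a * b * a) (h2 : D = b * a * b) : D⁻¹ * b = b⁻¹ * a⁻¹ := by
  rw [h2]; group

theorem l5 (a b D : Γ) (h1 : D = a * b * a) (_h2 : D = b * a * b) : a * D⁻¹ = b⁻¹ * a⁻¹ := by
  rw [h1]; group

theorem l6 (a b D : Γ) (h1 : D = a * b * a) (h2 : D = b * a * b) : b⁻¹ * D⁻¹ = D⁻¹ * a⁻¹ := by
  conv_lhs => rw [h1]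
  rw [h2]; group

theorem hD01 (x : Fin 3 → Γ) (_hb : ∀ i j, i ≠ j → x i * x j * x i = x j * x i * x j) :
    evG x 5 = x 0 * x 1 * x 0 := rfl

theorem hD02 (x : Fin 3 → Γ) (_hb : ∀ i j, i ≠ j → x i * x j * x i = x j * x i * x j) :
    evG x 4 = x 0 * x 2 * x 0 := rfl

theorem hD10 (x : Fin 3 → Γ) (hb : ∀ i j, i ≠ j → x i * x j * x i = x j * x i * x j) :
    evG x 5 = x 1 * x 0 * x 1 := (hb 0 1 (by decide))

theorem hD12 (x : Fin 3 → Γ) (_hb : ∀ i j, i ≠ j → x i * x j * x i = x j * x i * x j) :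
    evG x 3 = x 1 * x 2 * x 1 := rfl

theorem hD20 (x : Fin 3 → Γ) (hb : ∀ i j, i ≠ j → x i * x j * x i = x j * x i * x j) :
    evG x 4 = x 2 * x 0 * x 2 := (hb 0 2 (by decide))

theorem hD21 (x : Fin 3 → Γ) (hb : ∀ i j, i ≠ j → x i * x j * x i = x j * x i * x j) :
    evG x 3 = x 2 * x 1 * x 2 := (hb 1 2 (by decide))

def rep (s t : L) : L × L := (Fin.ofNat 12 (canon s t / 12), Fin.ofNat 12 (canon s t % 12))

def relList : List (L × L × L × L) :=
  [(7, 5, 0, 1), (5, 6, 0, 1), (5, 1, 0, 5), (11, 1, 7, 6), (0, 11, 7, 6), (7, 11, 11, 6),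
   (8, 4, 0, 2), (4, 6, 0, 2), (4, 2, 0, 4), (10, 2, 8, 6), (0, 10, 8, 6), (8, 10, 10, 6),
   (6, 5, 1, 0), (5, 7, 1, 0), (5, 0, 1, 5), (11, 0, 6, 7), (1, 11, 6, 7), (6, 11, 11, 7),
   (8, 3, 1, 2), (3, 7, 1, 2), (3, 2, 1, 3), (9, 2, 8, 7), (1, 9, 8, 7), (8, 9, 9, 7),
   (6, 4, 2, 0), (4, 8, 2, 0), (4, 0, 2, 4), (10, 0, 6, 8), (2, 10, 6, 8), (6, 10, 10, 8),
   (7, 3, 2, 1), (3, 8, 2, 1), (3, 1, 2, 3), (9, 1, 7, 8), (2, 9, 7, 8), (7, 9, 9, 8)]

theorem rep_check : ∀ s t : L, rep s t = (s, t) ∨ (s, t, rep s t) ∈ relList := by decide +kernel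

theorem relList_ok (x : Fin 3 → Γ) (hb : ∀ i j, i ≠ j → x i * x j * x i = x j * x i * x j) :
    ∀ q ∈ relList, evG x q.1 * evG x q.2.1 = evG x q.2.2.1 * evG x q.2.2.2 := by
  intro q hq
  simp only [relList, List.mem_cons, List.not_mem_nil, or_false] at hq
  rcases hq with rfl | rfl | rfl | rfl | rfl | rfl | rfl | rfl | rfl | rfl | rfl | rfl |
    rfl | rfl | rfl | rfl | rfl | rfl | rfl | rfl | rfl | rfl | rfl | rfl |
    rfl | rfl | rfl | rfl | rfl | rfl | rfl | rfl | rfl | rfl | rfl | rfl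
  · exact l1 (x 0) (x 1) (evG x 5) (hD01 x hb) (hD10 x hb)
  · exact l2 (x 0) (x 1) (evG x 5) (hD01 x hb) (hD10 x hb)
  · exact l3 (x 0) (x 1) (evG x 5) (hD01 x hb) (hD10 x hb)
  · exact l4 (x 0) (x 1) (evG x 5) (hD01 x hb) (hD10 x hb)
  · exact l5 (x 0) (x 1) (evG x 5) (hD01 x hb) (hD10 x hb)
  · exact l6 (x 0) (x 1) (evG x 5) (hD01 x hb) (hD10 x hb)
  · exact l1 (x 0) (x 2) (evG x 4) (hD02 x hb) (hD20 x hb)
  · exact l2 (x 0) (x 2) (evG x 4) (hD02 x hb) (hD20 x hb)
  · exact l3 (x 0) (x 2) (evG x 4) (hD02 x hb) (hD20 x hb)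
  · exact l4 (x 0) (x 2) (evG x 4) (hD02 x hb) (hD20 x hb)
  · exact l5 (x 0) (x 2) (evG x 4) (hD02 x hb) (hD20 x hb)
  · exact l6 (x 0) (x 2) (evG x 4) (hD02 x hb) (hD20 x hb)
  · exact l1 (x 1) (x 0) (evG x 5) (hD10 x hb) (hD01 x hb)
  · exact l2 (x 1) (x 0) (evG x 5) (hD10 x hb) (hD01 x hb)
  · exact l3 (x 1) (x 0) (evG x 5) (hD10 x hb) (hD01 x hb)
  · exact l4 (x 1) (x 0) (evG x 5) (hD10 x hb) (hD01 x hb)
  · exact l5 (x 1) (x 0) (evG x 5) (hD10 x hb) (hD01 x hb)
  · exact l6 (x 1) (x 0) (evG x 5) (hD10 x hb) (hD01 x hb)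
  · exact l1 (x 1) (x 2) (evG x 3) (hD12 x hb) (hD21 x hb)
  · exact l2 (x 1) (x 2) (evG x 3) (hD12 x hb) (hD21 x hb)
  · exact l3 (x 1) (x 2) (evG x 3) (hD12 x hb) (hD21 x hb)
  · exact l4 (x 1) (x 2) (evG x 3) (hD12 x hb) (hD21 x hb)
  · exact l5 (x 1) (x 2) (evG x 3) (hD12 x hb) (hD21 x hb)
  · exact l6 (x 1) (x 2) (evG x 3) (hD12 x hb) (hD21 x hb)
  · exact l1 (x 2) (x 0) (evG x 4) (hD20 x hb) (hD02 x hb)
  · exact l2 (x 2) (x 0) (evG x 4) (hD20 x hb) (hD02 x hb)
  · exact l3 (x 2) (x 0) (evG x 4) (hD20 x hb) (hD02 x hb)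
  · exact l4 (x 2) (x 0) (evG x 4) (hD20 x hb) (hD02 x hb)
  · exact l5 (x 2) (x 0) (evG x 4) (hD20 x hb) (hD02 x hb)
  · exact l6 (x 2) (x 0) (evG x 4) (hD20 x hb) (hD02 x hb)
  · exact l1 (x 2) (x 1) (evG x 3) (hD21 x hb) (hD12 x hb)
  · exact l2 (x 2) (x 1) (evG x 3) (hD21 x hb) (hD12 x hb)
  · exact l3 (x 2) (x 1) (evG x 3) (hD21 x hb) (hD12 x hb)
  · exact l4 (x 2) (x 1) (evG x 3) (hD21 x hb) (hD12 x hb)
  · exact l5 (x 2) (x 1) (evG x 3) (hD21 x hb) (hD12 x hb)
  · exact l6 (x 2) (x 1) (evG x 3) (hD21 x hb) (hD12 x hb)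

theorem evG_rep (x : Fin 3 → Γ) (hb : ∀ i j, i ≠ j → x i * x j * x i = x j * x i * x j)
    (s t : L) : evG x s * evG x t = evG x (rep s t).1 * evG x (rep s t).2 := by
  rcases rep_check s t with h | h
  · rw [h]
  · exact relList_ok x hb _ h

theorem evG_E (x : Fin 3 → Γ) (hb : ∀ i j, i ≠ j → x i * x j * x i = x j * x i * x j)
    {s t u v : L} (e : E s t u v) : evG x s * evG x t = evG x u * evG x v := by
  have : rep s t = rep u v := by
    unfold rep
    rw [show canon s t = canon u v from e]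
  rw [evG_rep x hb s t, evG_rep x hb u v, this]

end Ev

/-- The letter of a generator. -/
def gen (i : Fin 3) : L := Fin.castLE (by decide) i

theorem A_D {s t D : L} (e : E s t D (bar s)) : A s * A t * A s = A D := by
  rw [A_rel e, A_bar]
  group

theorem A_braid (i j : Fin 3) (h : i ≠ j) :
    A (gen i) * A (gen j) * A (gen i) = A (gen j) * A (gen i) * A (gen j) := by
  have k : ∀ i j : Fin 3, i ≠ j → ∃ D : L, E (gen i) (gen j) D (bar (gen i)) ∧
      E (gen j) (gen i) D (bar (gen j)) := by decide +kernel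
  obtain ⟨D, e1, e2⟩ := k i j h
  rw [A_D e1, A_D e2]

theorem evG_A (s : L) : evG (fun i => A (gen i)) s = A s := by
  have h3 : A 1 * A 2 * A 1 = A 3 := A_D (by decide +kernel)
  have h4 : A 0 * A 2 * A 0 = A 4 := A_D (by decide +kernel)
  have h5 : A 0 * A 1 * A 0 = A 5 := A_D (by decide +kernel)
  fin_cases s
  · rfl
  · rfl
  · rfl
  · exact h3
  · exact h4
  · exact h5
  · exact (A_bar 0).symm
  · exact (A_bar 1).symm
  · exact (A_bar 2).symm
  · exact (congrArg (·⁻¹) h3).trans (A_bar 3).symm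
  · exact (congrArg (·⁻¹) h4).trans (A_bar 4).symm
  · exact (congrArg (·⁻¹) h5).trans (A_bar 5).symm

/-- The braid relators. -/
def rels : Set (FreeGroup (Fin 3)) :=
  {r : FreeGroup (Fin 3) | ∃ i j : Fin 3, i ≠ j ∧
    r = FreeGroup.of i * FreeGroup.of j * FreeGroup.of i *
      (FreeGroup.of j * FreeGroup.of i * FreeGroup.of j)⁻¹}

/-- The Artin group. -/
abbrev G : Type := PresentedGroup rels

theorem G_braid (i j : Fin 3) (h : i ≠ j) :
    (PresentedGroup.of i : G) * PresentedGroup.of j * PresentedGroup.of i =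
      PresentedGroup.of j * PresentedGroup.of i * PresentedGroup.of j := by
  have h1 : PresentedGroup.mk rels (FreeGroup.of i * FreeGroup.of j * FreeGroup.of i *
      (FreeGroup.of j * FreeGroup.of i * FreeGroup.of j)⁻¹) = 1 :=
    PresentedGroup.one_of_mem ⟨i, j, h, rfl⟩
  rw [map_mul, map_inv, mul_inv_eq_one] at h1
  simpa [PresentedGroup.of] using h1

noncomputable def φ : G →* Equiv.Perm Om :=
  PresentedGroup.toGroup (f := fun i => A (gen i)) (by
    rintro r ⟨i, j, h, rfl⟩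
    simp [A_braid i j h])

/-- Value of a letter in the Artin group. -/
def ev (s : L) : G := evG PresentedGroup.of s

theorem φ_ev (s : L) : φ (ev s) = A s := by
  rw [ev, evG_map, ← evG_A]
  exact congrArg (fun x => evG x s) (funext fun i => PresentedGroup.toGroup.of _)

theorem ev_bar (s : L) : ev (bar s) = (ev s)⁻¹ := evG_bar _ s

theorem ev_E {s t u v : L} (e : E s t u v) : ev s * ev t = ev u * ev v := evG_E _ G_braid e

/-- Value of a word. -/
def evW : List L → G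
  | [] => 1
  | s :: w => evW w * ev s

theorem evW_eqv {w w' : List L} (h : Eqv w w') : evW w = evW w' := by
  induction h with
  | refl => rfl
  | symm _ ih => exact ih.symm
  | trans _ _ ih ih' => exact ih.trans ih'
  | cons s _ ih => simp [evW, ih]
  | step w e => simp only [evW, mul_assoc, ev_E e]

def evO : Om → G := Quotient.lift (fun w : GW => evW w.1) fun _ _ h => evW_eqv h

theorem evO_act (t : L) (x : Om) : evO (act t x) = evO x * ev t := by
  induction x using Quotient.inductionOn with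
  | _ w =>
    show evW (f t w).1 = evW w.1 * ev t
    by_cases h : mem (ty w.1) t = true
    · rw [evW_eqv (f_down h), evW, ev_bar]
      group
    · rw [f_up h, evW]

theorem evO_φ (g : G) : ∀ x : Om, evO ((φ g)⁻¹ x) = evO x * g := by
  have hg : g ∈ Subgroup.closure (Set.range (PresentedGroup.of : Fin 3 → G)) := by
    rw [PresentedGroup.closure_range_of]
    trivial
  induction hg using Subgroup.closure_induction with
  | mem g hg =>
    obtain ⟨i, rfl⟩ := hg
    intro x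
    have : (PresentedGroup.of i : G) = ev (gen i) := by fin_cases i <;> rfl
    rw [this, φ_ev, A_inv_apply, evO_act]
  | one => simp
  | mul g h _ _ ih ih' =>
    intro x
    rw [map_mul, mul_inv_rev, Equiv.Perm.mul_apply, ih', ih, mul_assoc]
  | inv g _ ih =>
    intro x
    have := ih (φ g x)
    rw [map_inv, inv_inv, eq_mul_inv_iff_mul_eq, ← this]
    simp

/-- Normal form of a group element. -/
noncomputable def nf (g : G) : Om := (φ g)⁻¹ base

theorem nf_mul (g : G) (t : L) : nf (g * ev t) = act t (nf g) := by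
  rw [nf, map_mul, mul_inv_rev, Equiv.Perm.mul_apply, φ_ev, A_inv_apply, nf]

theorem evO_nf (g : G) : evO (nf g) = g := by
  rw [nf, evO_φ]
  exact one_mul g

theorem nf_one : nf 1 = base := by simp [nf]

/-- The Cayley graph for the twelve letters. -/
noncomputable def cay : BH G where
  adj g h := ∃ s, h = g * ev s
  d g h := len (nf (g⁻¹ * h))
  symm := by
    rintro x y ⟨s, rfl⟩
    exact ⟨bar s, by rw [ev_bar]; group⟩
  zero := by
    intro x y
    constructor
    · intro h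
      have h1 := evO_nf (x⁻¹ * y)
      rw [eq_base h] at h1
      exact inv_mul_eq_one.1 h1.symm
    · rintro rfl
      rw [inv_mul_cancel, nf_one]
      rfl
  step := by
    rintro u x y ⟨s, rfl⟩
    rw [← mul_assoc, nf_mul]
    by_cases h : mem (tyO (nf (u⁻¹ * x))) s = true
    · exact Or.inr (len_act_down h).symm
    · exact Or.inl (len_act_up h)
  pred := by
    intro u x h
    obtain ⟨t, ht⟩ := exists_down h
    refine ⟨x * ev t, ⟨t, rfl⟩, ?_⟩
    rw [← mul_assoc, nf_mul]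
    exact len_act_down ht
  star := by
    intro u x h
    obtain ⟨s, p, h1, h2⟩ := star_Om h
    refine ⟨x * ev (bar s) * ev p, ?_, ?_⟩
    · rw [← mul_assoc, ← mul_assoc, nf_mul, nf_mul]
      exact h1
    · rintro y ⟨t, rfl⟩ hd
      rw [← mul_assoc, nf_mul] at hd
      have ht : mem (tyO (nf (u⁻¹ * x))) t = true := by
        by_contra hn
        have := len_act_up hn
        omega
      rcases h2 t ht with rfl | ⟨v, e⟩
      · exact ⟨p, rfl⟩
      · refine ⟨bar v, ?_⟩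
        have k := ev_E e
        rw [ev_bar, ev_bar] at k
        rw [ev_bar, ev_bar]
        have k2 : ev v = (ev p)⁻¹ * ev s * ev t := by rw [k]; group
        rw [k2]
        group

theorem cay_fin (x : G) : {y | cay.adj x y}.Finite := by
  refine (Set.finite_range fun s : L => x * ev s).subset ?_
  rintro y ⟨s, rfl⟩
  exact ⟨s, rfl⟩

theorem cay_d (g x y : G) : cay.d (g * x) (g * y) = cay.d x y := by
  show len (nf ((g * x)⁻¹ * (g * y))) = len (nf (x⁻¹ * y))
  congr 2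
  group

/-- Left translation of ordered edges. -/
def tr (g : G) (e : cay.Dt) : cay.Dt :=
  ⟨(g * e.1.1, g * e.1.2), by
    obtain ⟨s, hs⟩ := e.2
    exact ⟨s, by rw [hs, mul_assoc]⟩⟩

theorem tr_mul (g h : G) (e : cay.Dt) : tr (g * h) e = tr g (tr h e) := by
  simp [tr, mul_assoc]

theorem tr_one (e : cay.Dt) : tr 1 e = e := by
  simp [tr]

/-- Left translation as a graph automorphism. -/
def trIso (g : G) : cay.H ≃g cay.H where
  toFun := tr g
  invFun := tr g⁻¹
  left_inv e := by rw [← tr_mul, inv_mul_cancel, tr_one]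
  right_inv e := by rw [← tr_mul, mul_inv_cancel, tr_one]
  map_rel_iff' := by
    intro e e'
    have hinj : tr g e = tr g e' ↔ e = e' := by
      constructor
      · intro h
        have := congrArg (tr g⁻¹) h
        rwa [← tr_mul, ← tr_mul, inv_mul_cancel, tr_one, tr_one] at this
      · rintro rfl
        rfl
    show (tr g e ≠ tr g e' ∧ cay.Near (tr g e) (tr g e') 1) ↔ (e ≠ e' ∧ cay.Near e e' 1)
    rw [Ne, hinj]
    simp only [BH.Near, tr, cay_d]

/-- The action on the edge graph. -/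
def ρ : G →* (cay.H ≃g cay.H) where
  toFun := trIso
  map_one' := by
    ext e
    exact tr_one e
  map_mul' g h := by
    ext e
    exact tr_mul g h e

end Pool.Agent.MP_f411ce_al
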