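import Mathlib

set_option autoImplicit false

namespace Pool.Agent.MP_f411ce_al

/-- Letters: `0,1,2` are the generators, `3,4,5` the three half twists, `s + 6` is the inverse. -/
abbrev L : Type := Fin 12

/-- Cone types. -/
abbrev Ty : Type := Fin 37

def bar (s : L) : L := s + 6

def canonN : ℕ := 34303540941163791483709168000743508978699755029177923281548855655846342984711883787597435800062029912903575110473874647469529743042512950655118918174156377898754391247283050181442980789456130225814819495149658201417025580364447900198045314495670240375482109465592372068922547330843855642197908981769005025806890267627719331331857991974624396706048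

def memN : ℕ := 188568637869482056381514825623048536106536339677068197637634732365332668984013073816137356365393232230020080099769943088745526067200

def delN : ℕ := 2275605870212978165169579774329387945202548866651834032947218334086350681814084564109066273968211223952011839373807856323003493904935240576619902141212229507833151024678733367469641265020934445932761563826726219361851950551535932891950201148123519752121251927170747914081047469069229734950593930881746482379145104177611338513621766629787816765472158325624433632238810637040177415358610378557588607378159383641230645229630329527455017525179680028890002357386412140552616471820415384705032716746441058574558620003387015390003906437582154605214180395691234068177183942514226479322098639763362037502352707358259499286064710134720514054770608740751421936860762987803572579762077111736600043245118552548377830215101509074802015243562694051187415886844565630918278267940547899092312595338081587721529142422775036273644930535272970566446992365834438228730582859159395070661238080655479602305221508298789964838132083372708293907071639101618178078254042041188212099161590360344390526782217890272526557157475671105403151695766412409401386823108166049910824109007668056575594136065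

def canon (s t : L) : ℕ := (canonN >>> (8 * (12 * s.val + t.val))) % 256

def mem (T : Ty) (s : L) : Bool := memN.testBit (12 * T.val + s.val)

def del (T : Ty) (s : L) : Ty := Fin.ofNat 37 ((delN >>> (8 * (12 * T.val + s.val))) % 256)

/-- The two words `s t` and `u v` are listed as equal. -/
def E (s t u v : L) : Prop := canon s t = canon u v

instance (s t u v : L) : Decidable (E s t u v) := inferInstanceAs (Decidable (_ = _))

theorem E.refl (s t : L) : E s t s t := rfl

theorem E.symm {s t u v : L} (h : E s t u v) : E u v s t := Eq.symm h

theorem E.trans {s t u v p q : L} (h : E s t u v) (h' : E u v p q) : E s t p q := Eq.trans h h'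

def clN : ℕ := 167867429660490603959653136471138283304640710849533651592851651597563378895351694781587017602677035322656596121870527011268634627134833319823942288038914929014378170161967352288249892048817647965794306607935506263512177276362754138282629419206203687225791883175186068041576108033735835523711970846634188986912057986009375570458597701837126277428816776273410476402474378972889977191567062107406191969448617663121522064150072688698636755521261470050885207200996199446660464956516875896549321307666809210012799283364090575939742424438458835833701741385983915067778750508350645765857853627208050296345274872140223995730009557680085968242486431602403520739880443575226147483787241832186319991484939971963643262109801404536579954107443179400683272859288285110628256515227530528888342710055134727364500496898694080355693256865938274425193300124408997767100176342536994115112895216810330982925759042452188737393185742299673225273912989288476649233088342091903882449429656106079851304293719542717853893751828509232701004860987522287753634558311923712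

def clE (k : ℕ) : L × L :=
  (Fin.ofNat 12 ((clN >>> (8 * k + 4)) % 16), Fin.ofNat 12 ((clN >>> (8 * k)) % 16))

/-- The class of a two letter word. -/
def cl (s t : L) : List (L × L) :=
  [clE (3 * (12 * s.val + t.val)), clE (3 * (12 * s.val + t.val) + 1),
    clE (3 * (12 * s.val + t.val) + 2)]

theorem mem_cl' : ∀ s t u v : L, E s t u v → (u, v) ∈ cl s t := by decide +kernel

theorem mem_cl_aux : ∀ s t : L, ((cl s t).all fun p => decide (E s t p.1 p.2)) = true := by
  decide +kernel

theorem mem_cl'' (s t : L) : ∀ p ∈ cl s t, E s t p.1 p.2 := by
  simpa using mem_cl_aux s t

theorem mem_cl {s t u v : L} : (u, v) ∈ cl s t ↔ E s t u v :=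
  ⟨fun h => mem_cl'' s t _ h, mem_cl' s t u v⟩

theorem bar_bar : ∀ s : L, bar (bar s) = s := by decide

theorem mem_zero : ∀ s : L, mem 0 s = false := by decide +kernel

theorem mem_del : ∀ (T : Ty) (s : L), mem (del T s) (bar s) = true := by decide +kernel

theorem E_facts_aux : ∀ s t : L, ((cl s t).all fun p =>
    decide ((s = p.1 ↔ t = p.2) ∧ (s = p.1 ∨ E t (bar p.2) (bar s) p.1))) = true := by
  decide +kernel

theorem E_facts {s t u v : L} (h : E s t u v) :
    (s = u ↔ t = v) ∧ (s = u ∨ E t (bar v) (bar s) u) := by
  have := List.all_eq_true.1 (E_facts_aux s t) (u, v) (mem_cl.2 h)
  exact of_decide_eq_true this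

theorem inv_aux : ∀ s t : L, ((cl s t).all fun p => decide (∀ T : Ty, mem T s = false →
    mem (del T s) t = false → mem T p.1 = false ∧ mem (del T p.1) p.2 = false ∧
      del (del T s) t = del (del T p.1) p.2)) = true := by
  decide +kernel

theorem inv_check {s t u v : L} (h : E s t u v) (T : Ty) (h1 : mem T s = false)
    (h2 : mem (del T s) t = false) :
    mem T u = false ∧ mem (del T u) v = false ∧ del (del T s) t = del (del T u) v := by
  have := List.all_eq_true.1 (inv_aux s t) (u, v) (mem_cl.2 h)
  exact of_decide_eq_true this T h1 h2

theorem star_check : ∀ (T : Ty) (s : L), mem T s = false →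
    (T = 0 ∧ ∀ t, mem (del T s) t = true → t = bar s) ∨
      ∃ u, mem T u = true ∧ ∀ t, mem (del T s) t = true →
        t = bar s ∨ ∃ v, E (bar u) s v (bar t) := by decide +kernel

theorem mono_check : ∀ (T : Ty) (p v t : L), mem T p = false → mem (del T p) v = false →
    mem (del (del T p) v) t = false →
    mem (del 0 p) v = false ∧ mem (del (del 0 p) v) t = false := by decide +kernel

theorem cube_aux : ∀ p v t : L, mem (del 0 p) v = false → mem (del (del 0 p) v) t = false →
    ((cl p v).all fun a => (cl v t).all fun b => (cl a.2 t).all fun c =>
      decide (b.2 = c.2 ∧ E p b.1 a.1 c.1) ||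
        (cl p b.1).any fun x => (cl a.1 c.1).any fun y =>
          decide (x.1 = y.1 ∧ E x.2 b.2 y.2 c.2)) = true := by decide +kernel

theorem cube_check {p v t p' v' u s u' r : L} (h1 : mem (del 0 p) v = false)
    (h2 : mem (del (del 0 p) v) t = false) (ha : E p v p' v') (hb : E v t u s)
    (hc : E v' t u' r) :
    (s = r ∧ E p u p' u') ∨ ∃ q a b, E p u q a ∧ E p' u' q b ∧ E a s b r := by
  have k1 := List.all_eq_true.1 (cube_aux p v t h1 h2) (p', v') (mem_cl.2 ha)
  have k2 := List.all_eq_true.1 k1 (u, s) (mem_cl.2 hb)
  have k3 := List.all_eq_true.1 k2 (u', r) (mem_cl.2 hc)
  rcases Bool.or_eq_true_iff.1 k3 with k | k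
  · exact Or.inl (of_decide_eq_true k)
  · obtain ⟨⟨q, a⟩, hx, k4⟩ := List.any_eq_true.1 k
    obtain ⟨⟨q', b⟩, hy, k5⟩ := List.any_eq_true.1 k4
    obtain ⟨e1, e2⟩ := of_decide_eq_true k5
    dsimp only at e1 e2
    subst e1
    exact Or.inr ⟨q, a, b, mem_cl.1 hx, mem_cl.1 hy, e2⟩

theorem rel_aux : ∀ s t p : L, s ≠ bar t → ((cl s t).all fun a => (cl p s).all fun b =>
    decide (s ≠ a.1 → b.2 = bar t → a.1 ≠ bar p → E p a.1 b.1 (bar a.2))) = true := by
  decide +kernel

theorem rel_check {s t u v p q : L} (h : E s t u v) (h1 : s ≠ u) (h2 : s ≠ bar t)
    (h3 : E p s q (bar t)) (h4 : u ≠ bar p) : E p u q (bar v) := by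
  have k1 := List.all_eq_true.1 (rel_aux s t p h2) (u, v) (mem_cl.2 h)
  have k2 := List.all_eq_true.1 k1 (q, bar t) (mem_cl.2 h3)
  exact of_decide_eq_true k2 h1 rfl h4

theorem E_bar : ∀ s u v : L, E s (bar s) u v → s = u := by decide +kernel

end Pool.Agent.MP_f411ce_al
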