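import Pool.Agent.MP_f411ce_al.Table

set_option autoImplicit false

namespace Pool.Agent.MP_f411ce_al

/-- Cone type of a word (words are written with the last letter first). -/
def ty : List L → Ty
  | [] => 0
  | s :: w => del (ty w) s

/-- Words accepted by the automaton of geodesics. -/
def Good : List L → Prop
  | [] => True
  | s :: w => Good w ∧ mem (ty w) s = false

/-- The congruence generated by the listed equalities between two letter words. -/
inductive Eqv : List L → List L → Prop
  | refl (w : List L) : Eqv w w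
  | symm {w w' : List L} : Eqv w w' → Eqv w' w
  | trans {w w' w'' : List L} : Eqv w w' → Eqv w' w'' → Eqv w w''
  | cons (s : L) {w w' : List L} : Eqv w w' → Eqv (s :: w) (s :: w')
  | step {s t u v : L} (w : List L) : E s t u v → Eqv (t :: s :: w) (v :: u :: w)

theorem Eqv.length_eq {w w' : List L} (h : Eqv w w') : w.length = w'.length := by
  induction h with
  | refl => rfl
  | symm _ ih => exact ih.symm
  | trans _ _ ih ih' => exact ih.trans ih'
  | cons s _ ih => simp [ih]
  | step => rfl

theorem Eqv.good_ty {w w' : List L} (h : Eqv w w') :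
    (Good w ↔ Good w') ∧ (Good w → ty w = ty w') := by
  induction h with
  | refl => exact ⟨Iff.rfl, fun _ => rfl⟩
  | symm _ ih => exact ⟨ih.1.symm, fun g => (ih.2 (ih.1.2 g)).symm⟩
  | trans _ _ ih ih' => exact ⟨ih.1.trans ih'.1, fun g => (ih.2 g).trans (ih'.2 (ih.1.1 g))⟩
  | cons s _ ih =>
    refine ⟨⟨fun g => ⟨ih.1.1 g.1, ?_⟩, fun g => ⟨ih.1.2 g.1, ?_⟩⟩, fun g => ?_⟩
    · rw [← ih.2 g.1]
      exact g.2
    · rw [ih.2 (ih.1.2 g.1)]
      exact g.2
    · simp only [ty]
      rw [ih.2 g.1]
  | step w h =>
    refine ⟨⟨fun g => ?_, fun g => ?_⟩, fun g => ?_⟩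
    · obtain ⟨k1, k2, -⟩ := inv_check h (ty w) g.1.2 g.2
      exact ⟨⟨g.1.1, k1⟩, k2⟩
    · obtain ⟨k1, k2, -⟩ := inv_check h.symm (ty w) g.1.2 g.2
      exact ⟨⟨g.1.1, k1⟩, k2⟩
    · exact (inv_check h (ty w) g.1.2 g.2).2.2

theorem Eqv.good {w w' : List L} (h : Eqv w w') (g : Good w) : Good w' := h.good_ty.1.1 g

theorem Eqv.ty_eq {w w' : List L} (h : Eqv w w') (g : Good w) : ty w = ty w' := h.good_ty.2 g

/-- The quadrangle property. -/
def K : List L → List L → Prop
  | s :: w1, t :: w2 => (s = t ∧ Eqv w1 w2) ∨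
      ∃ w0 u v, E u s v t ∧ Eqv w1 (u :: w0) ∧ Eqv w2 (v :: w0)
  | _, _ => True

theorem K_symm {w w' : List L} (h : K w w') : K w' w := by
  rcases w with _ | ⟨s, w1⟩ <;> rcases w' with _ | ⟨t, w2⟩ <;> try trivial
  rcases h with ⟨rfl, h⟩ | ⟨w0, u, v, h1, h2, h3⟩
  · exact Or.inl ⟨rfl, h.symm⟩
  · exact Or.inr ⟨w0, v, u, h1.symm, h3, h2⟩

theorem K_of_eqv (n : ℕ) : ∀ w w' : List L, w.length = n → Eqv w w' → Good w → K w w' := by
  induction n using Nat.strong_induction_on with
  | _ n ihn =>
    intro w w' hn h g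
    induction h with
    | refl w =>
      rcases w with _ | ⟨s, w⟩
      · trivial
      · exact Or.inl ⟨rfl, Eqv.refl _⟩
    | symm h ih => exact K_symm (ih (h.length_eq.trans hn) (h.symm.good g))
    | cons s h _ => exact Or.inl ⟨rfl, h⟩
    | step w h => exact Or.inr ⟨w, _, _, h, Eqv.refl _, Eqv.refl _⟩
    | @trans w w' w'' h h' ih ih' =>
      have k1 := ih hn g
      have g' := h.good g
      have hn' : w'.length = n := h.length_eq.symm.trans hn
      have k2 := ih' hn' g'
      rcases w with _ | ⟨s, w1⟩
      · trivial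
      rcases w'' with _ | ⟨r, w3⟩
      · trivial
      rcases w' with _ | ⟨t, w2⟩
      · simpa using h.length_eq
      rcases k1 with ⟨rfl, k1⟩ | ⟨w0, u, v, e1, a1, a2⟩
      · rcases k2 with ⟨rfl, k2⟩ | ⟨w0, u, v, e1, a1, a2⟩
        · exact Or.inl ⟨rfl, k1.trans k2⟩
        · exact Or.inr ⟨w0, u, v, e1, k1.trans a1, a2⟩
      · rcases k2 with ⟨rfl, k2⟩ | ⟨w0', v', u', e2, b1, b2⟩
        · exact Or.inr ⟨w0, u, v, e1, a1, k2.symm.trans a2⟩
        · have gv : Good (t :: v :: w0) := (Eqv.cons t a2).good g'
          have hl : (v :: w0).length < n := by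
            rw [← a2.length_eq, ← hn']
            simp
          have k3 := ihn _ hl (v :: w0) (v' :: w0') rfl (a2.symm.trans b1) gv.1
          rcases k3 with ⟨rfl, k3⟩ | ⟨w00, p, p', e3, c1, c2⟩
          · exact Or.inr ⟨w0, u, u', e1.trans e2, a1, b2.trans (Eqv.cons _ k3.symm)⟩
          · have gp : Good (t :: v :: p :: w00) := (Eqv.cons t (Eqv.cons v c1)).good gv
            obtain ⟨m1, m2⟩ := mono_check (ty w00) p v t gp.1.1.2 gp.1.2 gp.2
            have d1 : Eqv w1 (u :: p :: w00) := a1.trans (Eqv.cons _ c1)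
            have d2 : Eqv w3 (u' :: p' :: w00) := b2.trans (Eqv.cons _ c2)
            rcases cube_check m1 m2 e3 e1.symm e2 with ⟨rfl, f1⟩ | ⟨q, a, b, f1, f2, f3⟩
            · exact Or.inl ⟨rfl, d1.trans ((Eqv.step w00 f1).trans d2.symm)⟩
            · exact Or.inr ⟨q :: w00, a, b, f3, d1.trans (Eqv.step w00 f1),
                d2.trans (Eqv.step w00 f2)⟩

theorem Eqv.cancel {s : L} {w1 w2 : List L} (h : Eqv (s :: w1) (s :: w2)) (g : Good (s :: w1)) :
    Eqv w1 w2 := by
  rcases K_of_eqv _ _ _ rfl h g with ⟨-, k⟩ | ⟨w0, u, v, e, a1, a2⟩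
  · exact k
  · have : u = v := (E_facts e).1.2 rfl
    subst this
    exact a1.trans a2.symm

theorem down_exists {w : List L} (g : Good w) {t : L} (h : mem (ty w) t = true) :
    ∃ w', Eqv w (bar t :: w') := by
  induction w generalizing t with
  | nil => simp [ty, mem_zero] at h
  | cons s w0 ih =>
    rcases star_check (ty w0) s g.2 with ⟨-, k⟩ | ⟨u, hu, k⟩
    · rw [k t h, bar_bar]
      exact ⟨w0, Eqv.refl _⟩
    · rcases k t h with rfl | ⟨v, e⟩
      · rw [bar_bar]
        exact ⟨w0, Eqv.refl _⟩
      · obtain ⟨w1, h1⟩ := ih g.1 hu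
        exact ⟨v :: w1, (Eqv.cons s h1).trans (Eqv.step w1 e)⟩

theorem mem_of_eqv {w w' : List L} (g : Good w) {t : L} (h : Eqv w (bar t :: w')) :
    mem (ty w) t = true := by
  rw [h.ty_eq g]
  have := mem_del (ty w') (bar t)
  rwa [bar_bar] at this

/-- Accepted words. -/
def GW : Type := {w : List L // Good w}

/-- Right multiplication by a letter. -/
noncomputable def f (t : L) (w : GW) : GW :=
  if h : mem (ty w.1) t = true then
    ⟨(down_exists w.2 h).choose, ((down_exists w.2 h).choose_spec.good w.2).1⟩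
  else ⟨t :: w.1, w.2, by simpa using h⟩

theorem f_down {t : L} {w : GW} (h : mem (ty w.1) t = true) : Eqv w.1 (bar t :: (f t w).1) := by
  rw [f, dif_pos h]
  exact (down_exists w.2 h).choose_spec

theorem f_up {t : L} {w : GW} (h : ¬ mem (ty w.1) t = true) : (f t w).1 = t :: w.1 := by
  rw [f, dif_neg h]

theorem f_down_of {t : L} {w : GW} {w' : List L} (h : Eqv w.1 (bar t :: w')) :
    Eqv (f t w).1 w' := by
  have h1 := f_down (mem_of_eqv w.2 h)
  exact (h1.symm.trans h).cancel (h1.good w.2)

theorem f_resp (t : L) {w w' : GW} (h : Eqv w.1 w'.1) : Eqv (f t w).1 (f t w').1 := by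
  by_cases hm : mem (ty w.1) t = true
  · have hm' : mem (ty w'.1) t = true := by rwa [← h.ty_eq w.2]
    exact f_down_of (h.trans (f_down hm'))
  · have hm' : ¬ mem (ty w'.1) t = true := by rwa [← h.ty_eq w.2]
    rw [f_up hm, f_up hm']
    exact Eqv.cons t h

theorem f_inv (t : L) (w : GW) : Eqv (f (bar t) (f t w)).1 w.1 := by
  by_cases hm : mem (ty w.1) t = true
  · have h1 := f_down hm
    have h2 : ¬ mem (ty (f t w).1) (bar t) = true := by
      have := (h1.good w.2).2
      simp [this]
    rw [f_up h2]
    exact h1.symm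
  · apply f_down_of
    rw [bar_bar, f_up hm]
    exact Eqv.refl _

theorem f_inv' (t : L) (w : GW) : Eqv (f t (f (bar t) w)).1 w.1 := by
  have := f_inv (bar t) w
  rwa [bar_bar] at this

theorem f_rel_down {n : ℕ} (ih : ∀ w : GW, w.1.length < n → ∀ s t u v : L, E s t u v →
      Eqv (f t (f s w)).1 (f v (f u w)).1) (w : GW) (hn : w.1.length = n) {s t u v : L}
    (e : E s t u v) (hsu : s ≠ u) (hs : mem (ty w.1) s = true) :
    Eqv (f t (f s w)).1 (f v (f u w)).1 := by
  have e' : E t (bar v) (bar s) u := (E_facts e).2.resolve_left hsu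
  have hl : (f s w).1.length < n := by
    have := (f_down hs).length_eq
    simp only [List.length_cons] at this
    omega
  have k := ih (f s w) hl _ _ _ _ e'
  have k2 : Eqv (f (bar v) (f t (f s w))).1 (f u w).1 := k.trans (f_resp u (f_inv s w))
  exact (f_inv' v _).symm.trans (f_resp v k2)

theorem f_rel (n : ℕ) : ∀ w : GW, w.1.length = n → ∀ s t u v : L, E s t u v →
    Eqv (f t (f s w)).1 (f v (f u w)).1 := by
  induction n using Nat.strong_induction_on with
  | _ n ihn =>
    intro w hn s t u v e
    have ih : ∀ w : GW, w.1.length < n → ∀ s t u v : L, E s t u v →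
        Eqv (f t (f s w)).1 (f v (f u w)).1 := fun w hw => ihn _ hw w rfl
    by_cases hsu : s = u
    · have htv : t = v := (E_facts e).1.1 hsu
      subst hsu
      subst htv
      exact Eqv.refl _
    by_cases hs : mem (ty w.1) s = true
    · exact f_rel_down ih w hn e hsu hs
    by_cases hu : mem (ty w.1) u = true
    · exact (f_rel_down ih w hn e.symm (Ne.symm hsu) hu).symm
    have es := f_up hs
    have eu := f_up hu
    by_cases ht : mem (ty (f s w).1) t = true
    · have h1 := f_down ht
      have hst : s ≠ bar t := by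
        intro h
        apply hsu
        have ht' : t = bar s := by rw [h, bar_bar]
        rw [ht'] at e
        exact E_bar s u v e
      have g1 := (f s w).2
      rw [es] at h1 g1
      rcases K_of_eqv _ _ _ rfl h1 g1 with ⟨k, -⟩ | ⟨w0, p, q, e1, a1, a2⟩
      · exact absurd k hst
      · have hup : u ≠ bar p := by
          intro h
          apply hu
          apply mem_of_eqv w.2 (w' := w0)
          rw [h, bar_bar]
          exact a1
        have e2 := rel_check e hsu hst e1 hup
        refine Eqv.symm (f_down_of ?_)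
        rw [eu]
        exact (Eqv.cons u a1).trans ((Eqv.step w0 e2).trans (Eqv.cons _ a2.symm))
    · have ht' : mem (del (ty w.1) s) t = false := by
        rw [es] at ht
        simpa [ty] using ht
      obtain ⟨-, k2, -⟩ := inv_check e (ty w.1) (by simpa using hs) ht'
      have hv : ¬ mem (ty (f u w).1) v = true := by
        rw [eu]
        simp [ty, k2]
      rw [f_up ht, f_up hv, es, eu]
      exact Eqv.step _ e

instance GW.setoid : Setoid GW where
  r w w' := Eqv w.1 w'.1
  iseqv := ⟨fun _ => Eqv.refl _, Eqv.symm, Eqv.trans⟩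

/-- Normal forms. -/
def Om : Type := Quotient GW.setoid

noncomputable def act (t : L) : Om → Om := Quotient.map (f t) fun _ _ h => f_resp t h

theorem act_inv (t : L) (x : Om) : act (bar t) (act t x) = x := by
  induction x using Quotient.inductionOn with
  | _ w => exact Quotient.sound (f_inv t w)

theorem act_inv' (t : L) (x : Om) : act t (act (bar t) x) = x := by
  induction x using Quotient.inductionOn with
  | _ w => exact Quotient.sound (f_inv' t w)

theorem act_rel {s t u v : L} (e : E s t u v) (x : Om) : act t (act s x) = act v (act u x) := by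
  induction x using Quotient.inductionOn with
  | _ w => exact Quotient.sound (f_rel _ w rfl s t u v e)

def len : Om → ℕ := Quotient.lift (fun w : GW => w.1.length) fun _ _ h => Eqv.length_eq h

def tyO : Om → Ty := Quotient.lift (fun w : GW => ty w.1) fun w _ h => Eqv.ty_eq h w.2

def base : Om := Quotient.mk _ (⟨[], trivial⟩ : GW)

theorem len_act_down {t : L} {x : Om} (h : mem (tyO x) t = true) : len (act t x) + 1 = len x := by
  induction x using Quotient.inductionOn with
  | _ w => exact (f_down h).length_eq.symm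

theorem len_act_up {t : L} {x : Om} (h : ¬ mem (tyO x) t = true) : len (act t x) = len x + 1 := by
  induction x using Quotient.inductionOn with
  | _ w => exact congrArg List.length (f_up h)

theorem eq_base {x : Om} (h : len x = 0) : x = base := by
  induction x using Quotient.inductionOn with
  | _ w =>
    obtain ⟨w, g⟩ := w
    have : w = [] := List.length_eq_zero_iff.1 h
    subst this
    rfl

theorem exists_down {x : Om} (h : 0 < len x) : ∃ t, mem (tyO x) t = true := by
  induction x using Quotient.inductionOn with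
  | _ w =>
    obtain ⟨w, g⟩ := w
    rcases w with _ | ⟨s, w⟩
    · exact absurd h (lt_irrefl 0)
    · exact ⟨bar s, mem_del _ _⟩

theorem star_Om {x : Om} (h : 2 ≤ len x) : ∃ s u : L, len (act u (act (bar s) x)) + 2 = len x ∧
    ∀ t, mem (tyO x) t = true → t = bar s ∨ ∃ v, E (bar u) s v (bar t) := by
  induction x using Quotient.inductionOn with
  | _ w =>
    obtain ⟨w, g⟩ := w
    rcases w with _ | ⟨s, _ | ⟨s', w⟩⟩
    · exact absurd h (show ¬ 2 ≤ 0 by decide)
    · exact absurd h (show ¬ 2 ≤ 1 by decide)
    · have h1 : act (bar s) (Quotient.mk _ (⟨s :: s' :: w, g⟩ : GW)) =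
          Quotient.mk _ (⟨s' :: w, g.1⟩ : GW) := by
        apply Quotient.sound
        apply f_down_of
        rw [bar_bar]
        exact Eqv.refl _
      rcases star_check (ty (s' :: w)) s g.2 with ⟨k, -⟩ | ⟨u, hu, k⟩
      · have := mem_del (ty w) s'
        simp only [ty] at k
        rw [k, mem_zero] at this
        exact absurd this (by decide)
      · refine ⟨s, u, ?_, k⟩
        rw [h1]
        have h2 := len_act_down (x := Quotient.mk _ (⟨s' :: w, g.1⟩ : GW)) hu
        exact congrArg (· + 1) h2

/-- The inverse of right multiplication by a letter, as a permutation. -/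
noncomputable def A (t : L) : Equiv.Perm Om where
  toFun := act (bar t)
  invFun := act t
  left_inv := act_inv' t
  right_inv := act_inv t

theorem A_bar (t : L) : A (bar t) = (A t)⁻¹ := by
  ext x
  show act (bar (bar t)) x = act t x
  rw [bar_bar]

theorem A_inv_apply (t : L) (x : Om) : (A t)⁻¹ x = act t x := rfl

theorem A_rel {s t u v : L} (e : E s t u v) : A s * A t = A u * A v := by
  apply inv_injective
  rw [mul_inv_rev, mul_inv_rev]
  ext x
  exact act_rel e x

end Pool.Agent.MP_f411ce_al
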